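import Pool.Agent.H451.JL.Stm

/-!
# Project JL (helper451): the moments (by helper216)
-/

set_option autoImplicit false
set_option linter.unusedVariables false

open scoped Classical

namespace Pool.Agent.H451.JL

open Finset
open Pool.Agent.Y759.CX (fr fr_nonneg)
open Pool.Agent.Y85.XK (Sy)

namespace MOM

theorem pairs_card (D : ℕ) :
    (univ.filter fun e : Fin D × Fin D => e.1 < e.2).card = D.choose 2 := by
  have h1 : (univ.filter fun e : Fin D × Fin D => e.1 < e.2).card =
      ∑ b : Fin D, (univ.filter fun a : Fin D => a < b).card := by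
    rw [card_filter, ← univ_product_univ, sum_product_right]
    refine sum_congr rfl fun b _ => ?_
    rw [card_filter]
  rw [h1]
  have h2 : ∀ b : Fin D, (univ.filter fun a : Fin D => a < b).card = (b : ℕ) := by
    intro b
    have : (univ.filter fun a : Fin D => a < b) = Finset.Iio b := by
      ext a; simp
    rw [this, Fin.card_Iio]
  rw [sum_congr rfl fun b _ => h2 b, Fin.sum_univ_eq_sum_range (fun i => i) D, sum_range_id,
    Nat.choose_two_right]

theorem Pc_add_Qc {D k : ℕ} (c : Fin D → Fin k) : Pc c + Qc c = D.choose 2 := by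
  rw [← pairs_card D, Pc, Qc]
  rw [← Finset.card_union_of_disjoint]
  · congr 1
    ext e
    simp only [mem_union, mem_filter, mem_univ, true_and]
    tauto
  · rw [Finset.disjoint_filter]
    rintro e _ ⟨_, h1⟩ ⟨_, h2⟩
    exact h1 h2

variable {V : Type} [AddCommGroup V] [Module F V] {k : ℕ}

/-- the number of the tuples with a given relation of the `V`-parts -/
theorem card_rel (s : Sys V k) {D N : ℕ} (c : Fin D → Fin k) (hs : s.OK N) (g : Fin D → F)
    (hg : g ≠ 0) :
    (univ.filter fun t : s.Tu c => ∑ a, g a • s.Y c t a = 0).card * 3 ^ N ≤ Nat.card V ^ D := by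
  obtain ⟨a₀, ha₀⟩ : ∃ a, g a ≠ 0 := by
    by_contra h
    push Not at h
    exact hg (funext h)
  set Z := univ.filter fun t : s.Tu c => ∑ a, g a • s.Y c t a = 0 with hZ
  let T' := ∀ b : {b : Fin D // b ≠ a₀}, s.L (c b)
  let φ : s.Tu c → T' := fun t b => t b
  have hfib : ∀ t' : T', (Z.filter fun t => φ t = t').card ≤
      Nat.card {p : s.L (c a₀) // s.y (c a₀) p = 0} := by
    intro t'
    rcases (Z.filter fun t => φ t = t').eq_empty_or_nonempty with h | ⟨t0, ht0⟩
    · rw [h]; simp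
    · rw [mem_filter] at ht0
      obtain ⟨hZ0, hφ0⟩ := ht0
      have hZ0' : ∑ a, g a • s.Y c t0 a = 0 := by simpa [hZ] using hZ0
      have key : ∀ t ∈ (Z.filter fun t => φ t = t'), s.y (c a₀) (t a₀ - t0 a₀) = 0 := by
        intro t ht
        rw [mem_filter] at ht
        obtain ⟨hZt, hφt⟩ := ht
        have hZt' : ∑ a, g a • s.Y c t a = 0 := by simpa [hZ] using hZt
        have h1 : ∀ a, a ≠ a₀ → t a = t0 a := fun a ha => by
          have := congrFun (hφt.trans hφ0.symm) ⟨a, ha⟩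
          exact this
        have h2 : ∑ a, g a • (s.Y c t a - s.Y c t0 a) = 0 := by
          simp only [smul_sub, sum_sub_distrib, hZt', hZ0', sub_zero]
        rw [Finset.sum_eq_single a₀] at h2
        · have h3 := (smul_eq_zero.1 h2).resolve_left ha₀
          rw [map_sub]
          exact h3
        · intro b _ hb
          have : s.Y c t b = s.Y c t0 b := by
            unfold Sys.Y
            rw [h1 b hb]
          rw [this, sub_self, smul_zero]
        · intro h; exact absurd (mem_univ _) h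
      rw [Nat.card_eq_fintype_card, ← Finset.card_univ]
      refine Finset.card_le_card_of_injOn (fun t => if h : s.y (c a₀) (t a₀ - t0 a₀) = 0 then
        (⟨t a₀ - t0 a₀, h⟩ : {p : s.L (c a₀) // s.y (c a₀) p = 0}) else ⟨0, map_zero _⟩)
        (fun _ _ => mem_univ _) ?_
      intro t ht u hu htu
      have ht' := key t ht
      have hu' := key u hu
      simp only [ht', hu', dif_pos] at htu
      have h4 : t a₀ = u a₀ := by
        have := congrArg Subtype.val htu
        simpa using this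
      have ht2 := (mem_filter.1 (Finset.mem_coe.1 ht)).2
      have hu2 := (mem_filter.1 (Finset.mem_coe.1 hu)).2
      funext a
      by_cases ha : a = a₀
      · subst ha; exact h4
      · exact congrFun (ht2.trans hu2.symm) ⟨a, ha⟩
  have h1 : Z.card ≤ Nat.card {p : s.L (c a₀) // s.y (c a₀) p = 0} * Fintype.card T' := by
    rw [← Finset.card_univ (α := T')]
    exact Finset.card_le_mul_card_image_of_maps_to (f := φ) (fun _ _ => mem_univ _) _
      (fun t' _ => hfib t')
  have h2 : Fintype.card T' = Nat.card V ^ (D - 1) := by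
    rw [Fintype.card_pi, Finset.prod_congr rfl fun b _ => by
      rw [← Nat.card_eq_fintype_card, hs.card]]
    rw [Finset.prod_const, Finset.card_univ]
    congr 1
    rw [Fintype.card_subtype_compl, Fintype.card_fin, Fintype.card_subtype_eq]
  have hD : 0 < D := Fin.pos a₀
  calc Z.card * 3 ^ N
      ≤ (Nat.card {p : s.L (c a₀) // s.y (c a₀) p = 0} * Fintype.card T') * 3 ^ N :=
        Nat.mul_le_mul_right _ h1
    _ = (Nat.card {p : s.L (c a₀) // s.y (c a₀) p = 0} * 3 ^ N) * Nat.card V ^ (D - 1) := by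
        rw [h2]; ring
    _ ≤ Nat.card V * Nat.card V ^ (D - 1) := Nat.mul_le_mul_right _ (hs.ker _)
    _ = Nat.card V ^ D := by
        rw [← pow_succ']
        congr 1
        omega

/-- the number of the tuples with dependent `V`-parts -/
theorem card_dep (s : Sys V k) {D N : ℕ} (c : Fin D → Fin k) (hs : s.OK N) :
    (univ.filter fun t : s.Tu c => ¬ LinearIndependent F (s.Y c t)).card * 3 ^ N ≤
      3 ^ D * Nat.card V ^ D := by
  have h1 : (univ.filter fun t : s.Tu c => ¬ LinearIndependent F (s.Y c t)) ⊆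
      (univ.filter fun g : Fin D → F => g ≠ 0).biUnion
        (fun g => univ.filter fun t : s.Tu c => ∑ a, g a • s.Y c t a = 0) := by
    intro t ht
    simp only [mem_filter, mem_univ, true_and] at ht
    rw [Fintype.linearIndependent_iff] at ht
    push Not at ht
    obtain ⟨g, hg, i, hi⟩ := ht
    simp only [mem_biUnion, mem_filter, mem_univ, true_and]
    exact ⟨g, fun h => hi (by rw [h]; rfl), hg⟩
  have h2 := (card_le_card h1).trans card_biUnion_le
  have h3 : (univ.filter fun g : Fin D → F => g ≠ 0).card ≤ 3 ^ D := by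
    refine (card_filter_le _ _).trans ?_
    rw [card_univ, Fintype.card_fun, ZMod.card, Fintype.card_fin]
  calc _ ≤ (∑ g ∈ univ.filter fun g : Fin D → F => g ≠ 0,
        (univ.filter fun t : s.Tu c => ∑ a, g a • s.Y c t a = 0).card) * 3 ^ N :=
        Nat.mul_le_mul_right _ h2
    _ = ∑ g ∈ univ.filter fun g : Fin D → F => g ≠ 0,
        (univ.filter fun t : s.Tu c => ∑ a, g a • s.Y c t a = 0).card * 3 ^ N := sum_mul _ _ _
    _ ≤ ∑ g ∈ univ.filter fun g : Fin D → F => g ≠ 0, Nat.card V ^ D :=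
        sum_le_sum fun g hg => card_rel s c hs g (mem_filter.1 hg).2
    _ = (univ.filter fun g : Fin D → F => g ≠ 0).card * Nat.card V ^ D := by
        rw [sum_const, smul_eq_mul]
    _ ≤ _ := Nat.mul_le_mul_right _ h3

end MOM

open MOM

theorem t_MOM : S_P → S_D → S_M → S_MOM := by
  intro hP hD hM V _ _ _ k N s D c hs
  have hD' := hD V k N s D c hs
  have hM' := hM V k N s D c hs
  have hdep := card_dep s c hs
  set M : ℝ := (Nat.card V : ℝ) with hMdef
  have hM0 : 0 < M := by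
    rw [hMdef]; exact_mod_cast Nat.card_pos
  have hMD : 0 < M ^ D := pow_pos hM0 D
  -- splitting
  set A1 : ℝ := ∑ t : s.Tu c, if LinearIndependent F (s.Y c t) then fr (s.Sat c t) else 0 with hA1
  set A2 : ℝ := ∑ t : s.Tu c, if s.BI c t ∧ ¬ LinearIndependent F (s.Y c t) then
    fr (s.Sat c t) else 0 with hA2
  have hsplit : (∑ t : s.Tu c, if s.BI c t then fr (s.Sat c t) else 0) = A1 + A2 := by
    rw [hA1, hA2, ← sum_add_distrib]
    refine sum_congr rfl fun t _ => ?_
    by_cases h1 : LinearIndependent F (s.Y c t)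
    · have h2 : s.BI c t := by
        intro g _ hg _
        rw [Fintype.linearIndependent_iff] at h1
        exact funext (h1 g hg)
      simp [h1, h2]
    · by_cases h2 : s.BI c t <;> simp [h1, h2]
  have hA2n : 0 ≤ A2 := by
    refine sum_nonneg fun t _ => ?_
    split_ifs
    · exact fr_nonneg _
    · exact le_rfl
  -- the first part
  set n1 : ℕ := (univ.filter fun t : s.Tu c => LinearIndependent F (s.Y c t) ∧ s.Sym c t).card
    with hn1
  set n2 : ℕ := (univ.filter fun t : s.Tu c => s.Sym c t).card with hn2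
  set n3 : ℕ := (univ.filter fun t : s.Tu c => ¬ LinearIndependent F (s.Y c t)).card with hn3
  have hA1' : A1 * M ^ D = 3 ^ (D.choose 2) * n1 := by
    rw [hA1, sum_mul, hn1, card_filter]
    push_cast
    rw [mul_sum]
    refine sum_congr rfl fun t _ => ?_
    by_cases h1 : LinearIndependent F (s.Y c t)
    · have h2 := hP V D (s.Y c t) (s.B c t) h1
      simp only [h1, if_true, true_and]
      have h3 : fr (s.Sat c t) * M ^ D = if s.Sym c t then (3 : ℝ) ^ (D.choose 2) else 0 := by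
        rw [show fr (s.Sat c t) = fr (fun S : Sy V => ∀ a, S.1 (s.Y c t a) = s.B c t a) from rfl,
          h2]
        by_cases h4 : s.Sym c t
        · rw [if_pos h4, if_pos (show ∀ a a', s.B c t a (s.Y c t a') = s.B c t a' (s.Y c t a) from h4)]
        · rw [if_neg h4, if_neg (show ¬ ∀ a a', s.B c t a (s.Y c t a') = s.B c t a' (s.Y c t a) from h4)]
      rw [h3]
      split_ifs <;> simp
    · simp [h1]
  have hn12 : n1 ≤ n2 := card_le_card fun t ht => by
    simp only [mem_filter, mem_univ, true_and] at ht ⊢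
    exact ht.2
  have hn23 : n2 ≤ n1 + n3 := by
    rw [hn1, hn2, hn3]
    refine le_trans (card_le_card ?_) (card_union_le _ _)
    intro t ht
    simp only [mem_filter, mem_union, mem_univ, true_and] at ht ⊢
    tauto
  have hn12' : (n1 : ℝ) ≤ n2 := by exact_mod_cast hn12
  have hn23' : (n2 : ℝ) ≤ n1 + n3 := by exact_mod_cast hn23
  have h3N : (0 : ℝ) < 3 ^ N := by positivity
  have hdep' : (n3 : ℝ) * 3 ^ N ≤ 3 ^ D * M ^ D := by
    rw [hn3, hMdef]; exact_mod_cast hdep
  have hPQ : (3 : ℝ) ^ (D.choose 2) / 3 ^ Pc c = 3 ^ Qc c := by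
    rw [← Pc_add_Qc c, pow_add]
    field_simp
  -- error of the count
  have herr : |(n1 : ℝ) - M ^ D / 3 ^ Pc c| * 3 ^ N ≤ (1 + 3 ^ D) * M ^ D := by
    have h1 : |(n1 : ℝ) - M ^ D / 3 ^ Pc c| ≤ |(n2 : ℝ) - M ^ D / 3 ^ Pc c| + n3 := by
      have : (n1 : ℝ) - M ^ D / 3 ^ Pc c = ((n2 : ℝ) - M ^ D / 3 ^ Pc c) + (n1 - n2) := by ring
      rw [this]
      refine (abs_add_le _ _).trans (add_le_add le_rfl ?_)
      rw [abs_le]
      constructor <;> linarith
    have h2 : |(n2 : ℝ) - M ^ D / 3 ^ Pc c| * 3 ^ N ≤ M ^ D := by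
      have := mul_le_mul_of_nonneg_right hM' h3N.le
      rwa [div_mul_cancel₀ _ h3N.ne'] at this
    nlinarith [mul_le_mul_of_nonneg_right h1 h3N.le]
  have hA1e : |A1 - 3 ^ Qc c| * 3 ^ N ≤ 3 ^ (D.choose 2) * (1 + 3 ^ D) := by
    have h1 : (A1 - 3 ^ Qc c) * M ^ D = 3 ^ (D.choose 2) * ((n1 : ℝ) - M ^ D / 3 ^ Pc c) := by
      rw [sub_mul, hA1', ← hPQ]; ring
    have h2 : |A1 - 3 ^ Qc c| * M ^ D = 3 ^ (D.choose 2) * |(n1 : ℝ) - M ^ D / 3 ^ Pc c| := by
      rw [← abs_of_pos hMD, ← abs_mul, h1, abs_mul, abs_of_pos (by positivity : (0:ℝ) < 3 ^ (D.choose 2)),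
        abs_of_pos hMD]
    have h3 : (|A1 - 3 ^ Qc c| * 3 ^ N) * M ^ D ≤ (3 ^ (D.choose 2) * (1 + 3 ^ D)) * M ^ D := by
      calc (|A1 - 3 ^ Qc c| * 3 ^ N) * M ^ D = (|A1 - 3 ^ Qc c| * M ^ D) * 3 ^ N := by ring
        _ = 3 ^ (D.choose 2) * (|(n1 : ℝ) - M ^ D / 3 ^ Pc c| * 3 ^ N) := by rw [h2]; ring
        _ ≤ 3 ^ (D.choose 2) * ((1 + 3 ^ D) * M ^ D) :=
            mul_le_mul_of_nonneg_left herr (by positivity)
        _ = _ := by ring
    exact le_of_mul_le_mul_right h3 hMD
  have hnum : (3 : ℝ) ^ (D.choose 2) * (1 + 3 ^ D) + 2 ^ D * 3 ^ (2 * D ^ 2) ≤ 3 ^ (3 * D ^ 2 + 2) := by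
    have hDD : D ≤ D ^ 2 := Nat.le_self_pow (n := 2) (by norm_num) D
    have hch : D.choose 2 + D ≤ D ^ 2 := by
      have h0 : D.choose 2 * 2 = D * (D - 1) := by
        rw [Nat.choose_two_right]
        exact Nat.div_mul_cancel (Nat.even_mul_pred_self D).two_dvd
      rcases Nat.eq_zero_or_pos D with h | h
      · subst h; simp
      · obtain ⟨m, rfl⟩ : ∃ m, D = m + 1 := ⟨D - 1, by omega⟩
        simp only [Nat.add_sub_cancel] at h0
        nlinarith
    have h1 : (3 : ℝ) ^ (D.choose 2) * (1 + 3 ^ D) ≤ 2 * 3 ^ (3 * D ^ 2) := by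
      have h11 : (1 : ℝ) ≤ 3 ^ D := one_le_pow₀ (by norm_num)
      calc (3 : ℝ) ^ (D.choose 2) * (1 + 3 ^ D) ≤ 3 ^ (D.choose 2) * (3 ^ D + 3 ^ D) := by
            gcongr
        _ = 2 * 3 ^ (D.choose 2 + D) := by rw [pow_add]; ring
        _ ≤ 2 * 3 ^ (3 * D ^ 2) := by
            gcongr
            · norm_num
            · omega
    have h2 : (2 : ℝ) ^ D * 3 ^ (2 * D ^ 2) ≤ 3 ^ (3 * D ^ 2) := by
      calc (2 : ℝ) ^ D * 3 ^ (2 * D ^ 2) ≤ 3 ^ D * 3 ^ (2 * D ^ 2) := by
            gcongr; norm_num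
        _ = 3 ^ (D + 2 * D ^ 2) := by rw [pow_add]
        _ ≤ 3 ^ (3 * D ^ 2) := by
            apply pow_le_pow_right₀ (by norm_num)
            omega
    have h3 : (0 : ℝ) < 3 ^ (3 * D ^ 2) := by positivity
    calc _ ≤ 2 * (3 : ℝ) ^ (3 * D ^ 2) + 3 ^ (3 * D ^ 2) := add_le_add h1 h2
      _ ≤ 9 * (3 : ℝ) ^ (3 * D ^ 2) := by linarith
      _ = 3 ^ (3 * D ^ 2 + 2) := by rw [pow_add]; ring
  rw [hsplit]
  have hfin : |A1 + A2 - 3 ^ Qc c| ≤ |A1 - 3 ^ Qc c| + A2 := by
    have : A1 + A2 - 3 ^ Qc c = (A1 - 3 ^ Qc c) + A2 := by ring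
    rw [this]
    refine (abs_add_le _ _).trans ?_
    rw [abs_of_nonneg hA2n]
  calc |A1 + A2 - 3 ^ Qc c| * 3 ^ N ≤ (|A1 - 3 ^ Qc c| + A2) * 3 ^ N :=
        mul_le_mul_of_nonneg_right hfin h3N.le
    _ = |A1 - 3 ^ Qc c| * 3 ^ N + A2 * 3 ^ N := by ring
    _ ≤ 3 ^ (D.choose 2) * (1 + 3 ^ D) + 2 ^ D * 3 ^ (2 * D ^ 2) := add_le_add hA1e hD'
    _ ≤ _ := hnum

end Pool.Agent.H451.JL
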