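import Mathlib
import Pool.Graph.R_seed8.W811.Stu.Grow
import Pool.Agent.H812.Tm.Spec1

/-!
# Project TM: exponential growth along hyperbolic runs
-/

set_option autoImplicit false

open Real Filter Topology

namespace Pool.Agent.H216.Tm

open Pool.Agent.W811.Stu Pool.Agent.H812.Tm

variable {δ : ℝ}

/-- the norm of a vector orthogonal to the third mirror grows -/
theorem norm_hyp {κ : ℝ} (hκ : 0 ≤ κ) {p : P3} {s1 s2 s3 : L} (hM : Mir p s1 s2 s3)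
    (hy : κ ≤ |p.y|) {b : L} (hb : Cn b) (h3 : ip b s3 = 0) (h1 : 1 ≤ κ) :
    κ ^ 2 * ip b b ≤ ip (pr (s3R p s2 s3) b) (pr (s3R p s2 s3) b) := by
  rw [norm_pr hM.R.n3]
  have e4 : ip b (s3R p s2 s3) = -ip b s2 := by
    rw [s3R, ip_sub_right, ip_smul_right, h3]; ring
  rw [e4]
  have hy2 : κ ^ 2 ≤ p.y ^ 2 := by
    rw [← sq_abs p.y]; exact pow_le_pow_left₀ hκ hy 2
  set τ : L := s2 - p.y • s3 with hτ
  have nτ : ip τ τ = p.y ^ 2 - 1 := by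
    have hc : ip s3 s2 = -p.y := by rw [ip_comm]; exact hM.hy
    simp only [hτ, ip_sub_left, ip_sub_right, ip_smul_left, ip_smul_right, hM.n2, hM.n3, hM.hy, hc]
    ring
  have bτ : ip b τ = ip b s2 := by
    rw [hτ, ip_sub_right, ip_smul_right, h3]; ring
  have h5 : 0 ≤ ip τ τ := by rw [nτ]; nlinarith
  have h6 := rev_cs hb.2 h5
  rw [bτ, nτ] at h6
  have h7 : 0 ≤ ip b b := hb.2
  nlinarith

theorem growH (k : ℕ) {κ : ℝ} (h1 : 1 ≤ κ) {p : P3} {s1 s2 s3 : L} (hM : Mir p s1 s2 s3)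
    (hy : κ ≤ |p.y|) :
    ∃ t1 t2 t3, Mir (stepR^[k] p) t1 t2 t3 ∧ ∀ (a b : L) (u : P3) (n : ℝ), 0 ≤ n →
      Dat δ p s1 s2 s3 a b u → Cn a → Cn b → n ^ 2 ≤ ip a a → n ^ 2 ≤ ip b b →
      ∃ a' b', Dat δ (stepR^[k] p) t1 t2 t3 a' b' (dRk k p u) ∧ Cn a' ∧ Cn b' ∧
        (n * κ ^ k / κ) ^ 2 ≤ ip a' a' ∧ (n * κ ^ k) ^ 2 ≤ ip b' b' := by
  have hκ0 : 0 < κ := by linarith
  induction k with
  | zero =>
    refine ⟨s1, s2, s3, hM, fun a b u n hn h ha hb na nb => ⟨a, b, h, ha, hb, ?_, ?_⟩⟩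
    · refine le_trans (pow_le_pow_left₀ (by positivity) ?_ 2) na
      rw [pow_zero, mul_one]
      exact div_le_self hn h1
    · simpa using nb
  | succ k ih =>
    obtain ⟨t1, t2, t3, hT, H⟩ := ih
    refine ⟨t1, t3, s3R (stepR^[k] p) t2 t3, ?_, fun a b u n hn h ha hb na nb => ?_⟩
    · rw [Function.iterate_succ_apply']; exact hT.R
    · obtain ⟨a', b', h', ha', hb', na', nb'⟩ := H a b u n hn h ha hb na nb
      have c1 := Cn_pr hT.n1 hb'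
      have c3 := Cn_pr hT.R.n3 hb'
      refine ⟨a' + pr t1 b', pr (s3R (stepR^[k] p) t2 t3) b', ?_, Cn_add ha' c1, c3, ?_, ?_⟩
      · rw [Function.iterate_succ_apply']; exact h'.R hT
      · have e1 : (n * κ ^ k) ^ 2 ≤ ip (pr t1 b') (pr t1 b') := by
          rw [norm_pr hT.n1]; nlinarith [sq_nonneg (ip b' t1)]
        refine le_trans (pow_le_pow_left₀ (by positivity) ?_ 2) (norm_add ha' c1 na' e1)
        have e2 : n * κ ^ (k + 1) / κ = n * κ ^ k := by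
          rw [pow_succ]; field_simp
        rw [e2]
        have : 0 ≤ n * κ ^ k / κ := by positivity
        linarith
      · have e1 := norm_hyp hκ0.le hT (by rw [iter_y]; exact hy) hb' h'.b3 h1
        refine le_trans ?_ e1
        have : (n * κ ^ (k + 1)) ^ 2 = κ ^ 2 * (n * κ ^ k) ^ 2 := by ring
        rw [this]
        exact mul_le_mul_of_nonneg_left nb' (sq_nonneg κ)

theorem run_lb {κ : ℝ} (hδ : δ ≠ 0) (hκ1 : 1 < κ) (hκ : κ < cc δ) {d : ℕ → ℕ}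
    (hd : ∀ k, 1 ≤ d k) {j k : ℕ} (hj : 2 ≤ j) (hk : 1 ≤ k) {p : P3} (hS : OnS δ p)
    (hz : |p.z| ≤ 1) (hy : κ ≤ |(orb d p j).y|) (ht : |tf d j k p| ≤ κ) :
    |δ| * √(cc δ ^ 2 - κ ^ 2) / (2 * cc δ * κ ^ 2) * κ ^ k * 2 ^ (j / 2) ≤ |Vt d j k p| := by
  have hc := cc_sq δ
  have hcp := cc_pos δ
  have hδ0 : 0 < |δ| := abs_pos.2 hδ
  have hκ0 : 0 < κ := by linarith
  have hgap : 0 < cc δ ^ 2 - κ ^ 2 := by nlinarith
  obtain ⟨m, rfl⟩ : ∃ m, j = m + 1 := ⟨j - 1, by omega⟩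
  obtain ⟨l, rfl⟩ : ∃ l, k = l + 1 := ⟨k - 1, by omega⟩
  obtain ⟨t1, t2, t3, a, b, η, hη, hT, hD, ha, hb, na, nb⟩ := stage hδ hd hS hz (m + 1)
  obtain ⟨g1, g2, g3, g4⟩ := gr_ge hd hδ0.le m
  have hη2 : η ^ 2 = 1 := by rcases hη with h | h <;> rw [h] <;> norm_num
  set n : ℝ := |δ| * 2 ^ (m / 2) with hn
  have hn0 : 0 ≤ n := by positivity
  have n1 : n ≤ (gr d 0 |δ| (m + 1)).1 := g2
  have n2 : n ≤ (gr d 0 |δ| (m + 1)).2 := by
    refine le_trans ?_ g4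
    apply mul_le_mul_of_nonneg_left _ hδ0.le
    exact pow_le_pow_right₀ (by norm_num) (by omega)
  obtain ⟨r1, r2, r3, hR, K⟩ := growH (δ := δ) l hκ1.le hT hy
  obtain ⟨a', b', h', ha', hb', na', nb'⟩ := K a b _ n hn0 hD ha hb
    (le_trans (pow_le_pow_left₀ hn0 n1 2) na) (le_trans (pow_le_pow_left₀ hn0 n2 2) nb)
  have ex : (stepR^[l] (orb d p (m + 1))).x = tf d (m + 1) (l + 1) p := iter_x _ _
  have eu : (dRk l (orb d p (m + 1)) (lc η (dorb d p (fV p) (m + 1)) 0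
      (dorb d p (fV p) (m + 1)))).x = η * Vt d (m + 1) (l + 1) p := by
    rw [dRk_lc]
    show η * _ + 0 * _ = _
    rw [zero_mul, add_zero]; rfl
  have hy2 : (tf d (m + 1) (l + 1) p) ^ 2 ≤ κ ^ 2 := by
    rw [← sq_abs]; exact pow_le_pow_left₀ (abs_nonneg _) ht 2
  set N : ℝ := n * κ ^ l / κ with hN
  have hN0 : 0 ≤ N := by positivity
  have hNb : N ^ 2 ≤ ip b' b' := by
    refine le_trans (pow_le_pow_left₀ hN0 ?_ 2) nb'
    exact div_le_self (by positivity) hκ1.le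
  have main := LBx hδ ((hS.orb d (m + 1)).iter l) hR h' ha' hb' (n := N) na' hNb
    (by rw [ex, ← hc]; linarith)
  rw [ex, eu, ← hc, mul_pow η, hη2, one_mul] at main
  have h6 : (N * √(cc δ ^ 2 - κ ^ 2)) ^ 2 ≤ (cc δ * |Vt d (m + 1) (l + 1) p|) ^ 2 := by
    rw [mul_pow, mul_pow (cc δ), Real.sq_sqrt hgap.le, sq_abs]
    refine le_trans ?_ main
    apply mul_le_mul_of_nonneg_left _ (sq_nonneg N)
    linarith
  have h8 : N * √(cc δ ^ 2 - κ ^ 2) ≤ cc δ * |Vt d (m + 1) (l + 1) p| :=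
    (abs_le_of_sq_le_sq' h6 (by positivity)).2
  have h9 : (2:ℝ) ^ ((m + 1) / 2) ≤ 2 * 2 ^ (m / 2) := by
    rw [mul_comm, ← pow_succ]
    exact pow_le_pow_right₀ (by norm_num) (by omega)
  calc |δ| * √(cc δ ^ 2 - κ ^ 2) / (2 * cc δ * κ ^ 2) * κ ^ (l + 1) * 2 ^ ((m + 1) / 2)
      ≤ |δ| * √(cc δ ^ 2 - κ ^ 2) / (2 * cc δ * κ ^ 2) * κ ^ (l + 1) * (2 * 2 ^ (m / 2)) :=
        mul_le_mul_of_nonneg_left h9 (by positivity)
    _ = N * √(cc δ ^ 2 - κ ^ 2) / cc δ := by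
        rw [hN, hn]; field_simp; ring
    _ ≤ |Vt d (m + 1) (l + 1) p| := by
        rw [div_le_iff₀ hcp]; linarith

theorem tRun (hDt : SDt) (hC : SCoord) : SRun := by
  intro δ κ hδ hκ1 hκ
  have hc := cc_sq δ
  have hcp := cc_pos δ
  have hδ0 : 0 < |δ| := abs_pos.2 hδ
  have hκ0 : 0 < κ := by linarith
  have hgap : 0 < cc δ ^ 2 - κ ^ 2 := by nlinarith
  refine ⟨|δ| * √(cc δ ^ 2 - κ ^ 2) / (2 * cc δ * κ ^ 2), by positivity, ?_⟩
  intro d hd j k hj hk v hv hy ht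
  have hv' : |v.1| < 1 := hv
  have hS : OnS δ (ze δ v) := (hC δ).1 v hv
  have hz : |(ze δ v).z| ≤ 1 := hv'.le
  refine le_trans (run_lb hδ hκ1 hκ hd hj hk hS hz hy ht) ?_
  rw [Tf_eq, (hDt δ (Function.update d j k) (j + 1)).2.2 v hv, Vt_eq_Vy, abs_div, abs_neg]
  have h1 : 0 < 1 - v.1 ^ 2 := by
    have := abs_lt.1 hv'
    nlinarith
  have h2 : 0 < √(1 - v.1 ^ 2) := Real.sqrt_pos.2 h1
  have h3 : √(1 - v.1 ^ 2) ≤ 1 := by
    rw [Real.sqrt_le_left (by norm_num)]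
    nlinarith [sq_nonneg v.1]
  rw [abs_of_pos h2, le_div_iff₀ h2]
  exact mul_le_of_le_one_right (abs_nonneg _) h3

end Pool.Agent.H216.Tm
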